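import Pool.Agent.L7h27.SJ.Stm

/-! Project SJ: ACT (by helper37, adapted from helper99's file for project SI). -/

set_option autoImplicit false

namespace Pool.Agent.L7h37.SJ

open Pool.Agent.L7h27.SI Pool.Agent.L7h27.SJ

theorem s_ACT : Pool.Agent.L7h27.SJ.S_ACT := by
  intro hC G _ _ V _ hab hne ι _ A p hp hinj hodd hcop hmers D hD hDab hcomm w hw
  classical
  letI instV : CommGroup V :=
    { (inferInstance : Group V) with
      mul_comm := fun x y => Subtype.ext (hab x.1 x.2 y.1 y.2) }
  let act : G → (Additive V →+ Additive V) := fun g =>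
    { toFun := fun x => Additive.ofMul (⟨g * (Additive.toMul x : V).1 * g⁻¹,
        ‹V.Normal›.conj_mem _ (Additive.toMul x : V).2 g⟩ : V)
      map_zero' := by
        apply congrArg Additive.ofMul
        apply Subtype.ext
        show g * 1 * g⁻¹ = 1
        group
      map_add' := by
        intro x y
        apply congrArg Additive.ofMul
        apply Subtype.ext
        show g * ((Additive.toMul x : V).1 * (Additive.toMul y : V).1) * g⁻¹ =
          (g * (Additive.toMul x : V).1 * g⁻¹) * (g * (Additive.toMul y : V).1 * g⁻¹)
        group }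
  have act_val : ∀ (g : G) (x : Additive V), ((Additive.toMul (act g x) : V) : G) =
      g * (Additive.toMul x : V).1 * g⁻¹ := fun g x => rfl
  have ext' : ∀ x y : Additive V, ((Additive.toMul x : V) : G) = ((Additive.toMul y : V) : G) →
      x = y := fun x y h => Additive.toMul.injective (Subtype.ext h)
  let ρ : ∀ i, D i →* AddMonoid.End (Additive V) := fun i =>
    { toFun := fun g => act (g : G)
      map_one' := by
        apply AddMonoidHom.ext
        intro x
        apply ext'
        show ((1 : D i) : G) * (Additive.toMul x : V).1 * ((1 : D i) : G)⁻¹ = (Additive.toMul x : V).1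
        simp
      map_mul' := by
        intro g h
        apply AddMonoidHom.ext
        intro x
        apply ext'
        show ((g * h : D i) : G) * (Additive.toMul x : V).1 * ((g * h : D i) : G)⁻¹ =
          (g : G) * ((h : G) * (Additive.toMul x : V).1 * (h : G)⁻¹) * (g : G)⁻¹
        push_cast
        group }
  have ρ_val : ∀ i (g : D i) (x : Additive V), ((Additive.toMul (ρ i g x) : V) : G) =
      (g : G) * (Additive.toMul x : V).1 * (g : G)⁻¹ := fun i g x => rfl
  have hyp : HypB A p ρ :=
    { finV := inferInstanceAs (Finite V)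
      finI := inferInstance
      finN := fun i => inferInstance
      prime := hp
      inj := hinj
      odd := hodd
      pg := hD
      cop := hcop
      ab := fun i hi g h => Subtype.ext (hDab i hi g.1 g.2 h.1 h.2)
      mers := hmers
      comm := by
        intro i j hij g h
        apply AddMonoidHom.ext
        intro x
        apply ext'
        show (g : G) * ((h : G) * (Additive.toMul x : V).1 * (h : G)⁻¹) * (g : G)⁻¹ =
          (h : G) * ((g : G) * (Additive.toMul x : V).1 * (g : G)⁻¹) * (h : G)⁻¹
        have h1 := hcomm i j hij g.1 g.2 h.1 h.2 (Additive.toMul x : V).1 (Additive.toMul x : V).2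
        calc (g : G) * ((h : G) * (Additive.toMul x : V).1 * (h : G)⁻¹) * (g : G)⁻¹ =
            (g : G) * (h : G) * (Additive.toMul x : V).1 * ((g : G) * (h : G))⁻¹ := by group
          _ = (h : G) * (g : G) * (Additive.toMul x : V).1 * ((h : G) * (g : G))⁻¹ := h1
          _ = _ := by group }
  obtain ⟨v, hv⟩ := hC (Additive V) ι (fun i => D i) A p ρ hyp
    (fun i => Additive.ofMul (⟨w i, hw i⟩ : V))
  refine ⟨(Additive.toMul v : V).1, (Additive.toMul v : V).2, ?_⟩
  intro i g hg hgv x hx
  have h3 : ρ i ⟨g, hg⟩ = 1 := by
    apply hv i ⟨g, hg⟩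
    apply ext'
    show g * ((Additive.toMul v : V).1 * w i) * g⁻¹ = (Additive.toMul v : V).1 * w i
    rw [hgv]
    group
  have h4 : ρ i ⟨g, hg⟩ (Additive.ofMul (⟨x, hx⟩ : V)) = Additive.ofMul (⟨x, hx⟩ : V) := by
    rw [h3]
    rfl
  have h5 : g * x * g⁻¹ = x := congrArg (fun y : Additive V => ((Additive.toMul y : V) : G)) h4
  calc g * x = (g * x * g⁻¹) * g := by group
    _ = x * g := by rw [h5]

end Pool.Agent.L7h37.SJ
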